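import Pool.Agent.W743.GV.Stm

set_option autoImplicit false
open Filter Topology

/-! Project GV, part AXI: the infinitesimal form of the axial symmetry of the pressure. -/

namespace Pool.Agent.W824.GV

open Pool.Agent.W743.GV

theorem t_AXI (hROT : S_ROT) : S_AXI := by
  intro U u p hU hp hax
  obtain ⟨c, n0, hn0, h⟩ := hax
  have hnn : ‖n0‖ ≠ 0 := norm_ne_zero_iff.mpr hn0
  set n : E3 := ‖n0‖⁻¹ • n0 with hn
  have hn1 : ‖n‖ = 1 := by
    rw [hn, norm_smul, norm_inv, norm_norm]
    exact inv_mul_cancel₀ hnn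
  have hnne : n ≠ 0 := by
    intro h0
    rw [h0, norm_zero] at hn1
    exact zero_ne_one hn1
  refine ⟨c, n, hnne, ?_⟩
  intro x hx
  let R : ℝ → E3 := fun t => c + (Real.cos t • (x - c) + Real.sin t • crs n (x - c) +
    ((1 - Real.cos t) * inner ℝ n (x - c)) • n)
  have hR0 : R 0 = x := by
    simp [R]
  have hRd : HasDerivAt R (crs n (x - c)) 0 := by
    have h1 : HasDerivAt (fun t => Real.cos t • (x - c)) ((-Real.sin 0) • (x - c)) 0 :=
      (Real.hasDerivAt_cos 0).smul_const _
    have h2 : HasDerivAt (fun t => Real.sin t • crs n (x - c)) (Real.cos 0 • crs n (x - c)) 0 :=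
      (Real.hasDerivAt_sin 0).smul_const _
    have h3 : HasDerivAt (fun t => ((1 - Real.cos t) * inner ℝ n (x - c)) • n)
        (((-(-Real.sin 0)) * inner ℝ n (x - c)) • n) 0 :=
      ((((Real.hasDerivAt_cos 0).const_sub 1).mul_const _)).smul_const _
    have h4 := ((h1.add h2).add h3).const_add c
    simp only [Real.sin_zero, Real.cos_zero, neg_zero, zero_smul, one_smul, zero_add, zero_mul,
      add_zero] at h4
    exact h4
  have hev : (fun t => p (R t)) =ᶠ[𝓝 (0 : ℝ)] fun _ => p x := by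
    have h1 : ∀ᶠ t in 𝓝 (0 : ℝ), R t ∈ U := by
      have h2 : R 0 ∈ U := by rw [hR0]; exact hx
      exact hRd.continuousAt.eventually (hU.mem_nhds h2)
    filter_upwards [h1] with t ht
    obtain ⟨A, hA, hAn, hAv⟩ := hROT n hn1 t
    have h3 : Matrix.toEuclideanLin A n0 = n0 := by
      have h4 : n0 = ‖n0‖ • n := by
        rw [hn, smul_smul, mul_inv_cancel₀ hnn, one_smul]
      have h5 : Matrix.toEuclideanLin A (‖n0‖ • n) = ‖n0‖ • n := by
        rw [map_smul, hAn]
      rw [← h4] at h5
      exact h5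
    have h6 : R t = c + Matrix.toEuclideanLin A (x - c) := by
      rw [hAv (x - c)]
    rw [h6]
    rw [h6] at ht
    exact (h A hA h3 x hx ht).1
  have hd : HasDerivAt (fun t => p (R t)) (fderiv ℝ p x (crs n (x - c))) 0 := by
    have h1 : HasFDerivAt p (fderiv ℝ p x) (R 0) := by
      rw [hR0]
      exact (hp x hx).hasFDerivAt
    exact h1.comp_hasDerivAt 0 hRd
  have hd0 : HasDerivAt (fun t => p (R t)) 0 0 :=
    (hasDerivAt_const (0 : ℝ) (p x)).congr_of_eventuallyEq hev
  exact hd.unique hd0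

end Pool.Agent.W824.GV
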